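import Pool.Agent.Helper15.FC.St1

set_option autoImplicit false

/-!
# Project FC (MP_16cbc0_nt): module STP, the Stepanov theorem for the Lang torsor
-/

namespace Pool.Agent.Helper40.FC

open Pool.Agent.Helper15.FC Polynomial

noncomputable section

/-- the linear substitution in polynomials -/
def subL {L : Type} [Field L] {b : ℕ} (c : Matrix (Fin b) (Fin b) L) :
    MvPolynomial (Option (Fin b)) L →ₐ[L] MvPolynomial (Option (Fin b)) L :=
  MvPolynomial.aeval (fun o : Option (Fin b) => o.elim (MvPolynomial.X none)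
    (fun i => ∑ j, MvPolynomial.C (c i j) * MvPolynomial.X (some j)))

theorem ev_X {L : Type} [Field L] {b : ℕ} (y : Fin b → PowerSeries L) (o : Option (Fin b)) :
    ev y (MvPolynomial.X o) = pt y o := by
  unfold ev
  rw [MvPolynomial.aeval_X]

theorem ev_C {L : Type} [Field L] {b : ℕ} (y : Fin b → PowerSeries L) (a : L) :
    ev y (MvPolynomial.C a) = PowerSeries.C a := by
  unfold ev
  rw [MvPolynomial.aeval_C]
  rfl

theorem ev_subL {L : Type} [Field L] {b : ℕ} (c : Matrix (Fin b) (Fin b) L)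
    (y : Fin b → PowerSeries L) (Φ : MvPolynomial (Option (Fin b)) L) :
    ev y (subL c Φ) = ev (cy c y) Φ := by
  have h : (ev y).comp (subL c) = ev (cy c y) := by
    apply MvPolynomial.algHom_ext
    intro o
    rw [AlgHom.comp_apply, ev_X]
    unfold subL
    rw [MvPolynomial.aeval_X]
    cases o with
    | none =>
      change ev y (MvPolynomial.X none) = pt (cy c y) none
      rw [ev_X]
      rfl
    | some i =>
      change ev y (∑ j, MvPolynomial.C (c i j) * MvPolynomial.X (some j)) = pt (cy c y) (some i)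
      rw [map_sum]
      change _ = ∑ j, PowerSeries.C (c i j) * y j
      refine Finset.sum_congr rfl fun j _ => ?_
      rw [map_mul, ev_C, ev_X]
      rfl
  rw [← h, AlgHom.comp_apply]

theorem cy_mul {L : Type} [Field L] {b : ℕ} (c c' : Matrix (Fin b) (Fin b) L)
    (y : Fin b → PowerSeries L) : cy (c * c') y = cy c (cy c' y) := by
  funext i
  unfold cy
  have h1 : ∀ j, PowerSeries.C ((c * c') i j) * y j =
      ∑ l, PowerSeries.C (c i l) * (PowerSeries.C (c' l j) * y j) := by
    intro j
    rw [Matrix.mul_apply, map_sum, Finset.sum_mul]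
    refine Finset.sum_congr rfl fun l _ => ?_
    rw [map_mul, mul_assoc]
  rw [Finset.sum_congr rfl fun j _ => h1 j, Finset.sum_comm]
  refine Finset.sum_congr rfl fun l _ => ?_
  rw [Finset.mul_sum]

theorem rel_mul {L : Type} [Field L] {b : ℕ} (y : Fin b → PowerSeries L)
    (c c' : Matrix (Fin b) (Fin b) L) (h : Rel y c) (h' : Rel y c') : Rel y (c * c') := by
  intro Φ hΦ
  rw [cy_mul, ← ev_subL]
  apply h'
  rw [ev_subL]
  exact h Φ hΦ

theorem cy_cc {L : Type} [Field L] {b : ℕ} (c : Matrix (Fin b) (Fin b) L)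
    (y : Fin b → PowerSeries L) (i : Fin b) :
    PowerSeries.constantCoeff (cy c y i) =
      c.mulVec (fun i => PowerSeries.constantCoeff (y i)) i := by
  unfold cy
  rw [map_sum]
  change _ = ∑ j, c i j * PowerSeries.constantCoeff (y j)
  refine Finset.sum_congr rfl fun j _ => ?_
  rw [map_mul, PowerSeries.constantCoeff_C]

theorem hSTP (hDAT : StDAT) (hDM : StDM) (hEXT : StEXT) (hHC : StHC) (hNUM : StNUM)
    (hUB : StUB) (hUBH : StUBH) : StSTP := by
  classical
  intro k _ _ b XX y G hsys hfin hinj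
  have hq : 2 ≤ Fintype.card k := Fintype.one_lt_card
  obtain ⟨I, D, C, hD⟩ := hDAT k b (Fintype.card k) XX y hq hsys
  obtain ⟨C', hC'⟩ := hDM k b (Fintype.card k) y I D C hD
  have hh : 1 ≤ I.card := Finset.card_pos.2 hD.2.1
  obtain ⟨P0, C2, hN⟩ := hNUM I.card C' hh
  -- the bound for the matrices that do not preserve the relations
  have hJ : ∀ c : Matrix (Fin b) (Fin b) k, ∃ J : ℕ, ¬ Rel y c →
      ∀ (L : Type) [Field L] [Fintype L] [Algebra k L] (s : ℕ), 1 ≤ s →
      Fintype.card L = Fintype.card k ^ s →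
      Nat.card {a : L // NmX XX (Fintype.card k) a s = c.map (algebraMap k L)} ≤ J := by
    intro c
    by_cases hc : Rel y c
    · exact ⟨0, fun h => absurd hc h⟩
    · obtain ⟨J, hJ⟩ := hUBH k b XX y c hsys hc
      exact ⟨J, fun _ => hJ⟩
  choose J hJ using hJ
  refine ⟨I.card, G.filter (fun c => Rel y c), max C2 0 + ∑ c ∈ G, (J c : ℝ), max P0 1, hh, ?_,
    Finset.filter_subset _ _, ?_, ?_, ?_⟩
  · exact add_nonneg (le_max_right _ _) (Finset.sum_nonneg fun c _ => Nat.cast_nonneg _)
  · refine hHC k b (Fintype.card k) y I D C hD _ (fun c hc => (Finset.mem_filter.1 hc).2) ?_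
    intro c hc c' hc' heq
    refine hinj c (Finset.mem_filter.1 hc).1 c' (Finset.mem_filter.1 hc').1 ?_
    funext i
    rw [← cy_cc, ← cy_cc, heq]
  · intro c hc c' hc' hcc
    exact Finset.mem_filter.2 ⟨hcc, rel_mul y c c' (Finset.mem_filter.1 hc).2
      (Finset.mem_filter.1 hc').2⟩
  · intro t ht L _ _ _ hL
    have ht1 : 1 ≤ t := (le_max_right _ _).trans ht
    have hJ0 : 0 ≤ ∑ c ∈ G, (J c : ℝ) := Finset.sum_nonneg fun c _ => Nat.cast_nonneg _
    have hs : 1 ≤ 2 * t := by omega
    refine ⟨fun c hc => ?_, fun c hc hcH => ?_⟩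
    · obtain ⟨e, he, hce⟩ := hfin c hc
      obtain ⟨P, hP⟩ : ∃ P : ℕ, P = Fintype.card k ^ t := ⟨_, rfl⟩
      have hP0 : P0 ≤ P := by
        have h1 : P0 ≤ t := (le_max_left _ _).trans ht
        have h2 : t < 2 ^ t := Nat.lt_two_pow_self
        have h3 : 2 ^ t ≤ Fintype.card k ^ t := Nat.pow_le_pow_left hq t
        omega
      obtain ⟨l, m, hlP, hv, hlm⟩ := hN P hP0
      have hbd : ∀ j : ℕ, I.card * j ≤ Module.finrank L (Vj (upL L y) j) + C' ∧
          Module.finrank L (Vj (upL L y) j) ≤ I.card * j + C' := by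
        intro j
        rw [hEXT k L b y j]
        exact hC' j
      have hLP : Fintype.card L = P ^ 2 := by
        rw [hL, hP, ← pow_mul, mul_comm t 2]
      have h1 := hUB k L b (2 * t) XX y c e I.card C' P l m hsys hL hs he hce hLP hbd hlP
        (hv _ _ _ (hbd l).1 (hbd m).1 (hbd (l * P + m)).2)
      have h2 : (Nat.card {a : L // NmX XX (Fintype.card k) a (2 * t) =
          c.map (algebraMap k L)} : ℝ) ≤ ((l + m * P : ℕ) : ℝ) := by exact_mod_cast h1
      have h3 : (P : ℝ) = (Fintype.card k : ℝ) ^ t := by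
        rw [hP]
        push_cast
        rfl
      have h4 : (P : ℝ) ^ 2 = (Fintype.card k : ℝ) ^ (2 * t) := by
        rw [h3, ← pow_mul, mul_comm t 2]
      have h5 : 0 ≤ (Fintype.card k : ℝ) ^ t := by positivity
      rw [h4, h3] at hlm
      refine h2.trans (hlm.trans ?_)
      have h6 : C2 * (Fintype.card k : ℝ) ^ t ≤
          (max C2 0 + ∑ c ∈ G, (J c : ℝ)) * (Fintype.card k : ℝ) ^ t := by
        apply mul_le_mul_of_nonneg_right _ h5
        have := le_max_left C2 0
        linarith
      linarith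
    · have hcR : ¬ Rel y c := fun h => hcH (Finset.mem_filter.2 ⟨hc, h⟩)
      have h1 := hJ c hcR L (2 * t) hs hL
      have h2 : (Nat.card {a : L // NmX XX (Fintype.card k) a (2 * t) =
          c.map (algebraMap k L)} : ℝ) ≤ (J c : ℝ) := by exact_mod_cast h1
      have h3 : (J c : ℝ) ≤ ∑ c ∈ G, (J c : ℝ) :=
        Finset.single_le_sum (f := fun c => (J c : ℝ)) (fun c _ => Nat.cast_nonneg _) hc
      have := le_max_right C2 0
      linarith

end

end Pool.Agent.Helper40.FC
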